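import Pool.Graph.R_pool_sql_team_668148b0.Results.MP_b1555f_an.RealInterlacingZeros
import Pool.Agent.Helper31.Berg.Extr
import Pool.Agent.Helper31.Berg.Exist
import Pool.Agent.Helper31.Berg.Gon
import Pool.Agent.Helper31.Berg.Limit

set_option autoImplicit false

open Set Filter Topology Metric MeasureTheory Polynomial

namespace Pool.Agent.Results.MP_b1555f_an.ZeroDistribution

/-- The open regular `N`-gon whose vertices are the `N`-th roots of unity. -/
def Ngon (N : ℕ) : Set ℂ := interior (convexHull ℝ {z : ℂ | z ^ N = 1})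

/-- The Bergman inner product of two polynomials over the open `N`-gon
(integration with respect to planar Lebesgue measure). -/
noncomputable def bergmanInner (N : ℕ) (p q : ℂ[X]) : ℂ :=
  ∫ z in Ngon N, p.eval z * starRingEnd ℂ (q.eval z)

/-- `p` is the Gram-Schmidt sequence of `1, z, z^2, ...` for the Bergman inner product of the
`N`-gon: `deg p_m = m`, the leading coefficients are positive reals, and the `p_m` are
orthonormal. -/
structure IsBergmanOP (N : ℕ) (p : ℕ → ℂ[X]) : Prop where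
  natDegree_eq : ∀ m, (p m).natDegree = m
  leading_pos : ∀ m, ∃ c : ℝ, 0 < c ∧ (p m).leadingCoeff = c
  orthonormal : ∀ m n, bergmanInner N (p m) (p n) = if m = n then 1 else 0

/-- `φ` is the conformal map of the exterior of the closed `N`-gon onto `{|w| > 1}` with
`φ(∞) = ∞` and `φ'(∞) = lim φ(z) / z = 1 / c > 0`; `c` is the capacity of the closed `N`-gon. -/
structure IsExteriorMap (N : ℕ) (φ : ℂ → ℂ) (c : ℝ) : Prop where
  differentiableOn : DifferentiableOn ℂ φ (closure (Ngon N))ᶜ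
  bijOn : BijOn φ (closure (Ngon N))ᶜ {w : ℂ | 1 < ‖w‖}
  pos : 0 < c
  tendsto : Tendsto (fun z => φ z / z) (Bornology.cobounded ℂ) (𝓝 ((1 / c : ℝ) : ℂ))

/-- `μ` is a probability measure on `[0, 1]` with
`∫ log |z ^ N - x| dμ(x) = N log |φ(z)| + N log c` for `|z| > 1`. -/
structure IsRootLaw (N : ℕ) (φ : ℂ → ℂ) (c : ℝ) (μ : Measure ℝ) : Prop where
  isProbabilityMeasure : IsProbabilityMeasure μ
  support : μ (Icc 0 1)ᶜ = 0
  potential : ∀ z : ℂ, 1 < ‖z‖ →
    ∫ x, Real.log ‖z ^ N - (x : ℂ)‖ ∂μ = N * Real.log ‖φ z‖ + N * Real.log c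

open Pool.Agent.Helper31.Berg

theorem isExt_iff (N : ℕ) (φ : ℂ → ℂ) (c : ℝ) : IsExteriorMap N φ c ↔ IsExt (Ngon N) φ c :=
  ⟨fun h => ⟨h.1, h.2, h.3, h.4⟩, fun h => ⟨h.1, h.2, h.3, h.4⟩⟩

theorem body {N : ℕ} (hN : N = 3 ∨ N = 4) : Body (Ngon N) :=
  body_gon (by omega)

theorem isON {N : ℕ} {p : ℕ → ℂ[X]} (hp : IsBergmanOP N p) : IsON (Ngon N) p :=
  ⟨hp.natDegree_eq, hp.orthonormal⟩

/-- measures on the interval, seen on the line -/
theorem isRootLaw_map {N : ℕ} {φ : ℂ → ℂ} {c : ℝ} {μ : ProbabilityMeasure XX}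
    (h : Pot N φ c (μ : Measure XX)) :
    IsRootLaw N φ c ((μ : Measure XX).map Subtype.val) where
  isProbabilityMeasure := Measure.isProbabilityMeasure_map measurable_subtype_coe.aemeasurable
  support := by
    rw [Measure.map_apply measurable_subtype_coe measurableSet_Icc.compl]
    convert measure_empty (μ := (μ : Measure XX))
    ext x
    simp [x.2.1, x.2.2]
  potential := by
    intro z hz
    rw [(MeasurableEmbedding.subtype_coe measurableSet_Icc).integral_map]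
    exact h z hz

/-- uniqueness of the root law -/
theorem rootLaw_unique {N : ℕ} (hN : N ≠ 0) {φ : ℂ → ℂ} {c : ℝ} {μ ν : Measure ℝ}
    (hμ : IsRootLaw N φ c μ) (hν : IsRootLaw N φ c ν) : μ = ν := by
  have := hμ.isProbabilityMeasure
  have := hν.isProbabilityMeasure
  apply measure_ext hμ.support hν.support
  intro w hw
  obtain ⟨s, hs, hsw⟩ : ∃ s : ℝ, 1 < s ∧ s ^ N = w := by
    refine ⟨w ^ ((1 : ℝ) / N), ?_, ?_⟩
    · exact Real.one_lt_rpow hw (by positivity)
    · rw [← Real.rpow_natCast, ← Real.rpow_mul (by linarith), one_div,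
        inv_mul_cancel₀ (by exact_mod_cast hN), Real.rpow_one]
  have key : ∀ κ : Measure ℝ, κ (Icc 0 1)ᶜ = 0 →
      ∫ x, Real.log (w - x) ∂κ = ∫ x, Real.log ‖(s : ℂ) ^ N - (x : ℂ)‖ ∂κ := by
    intro κ hκ
    have hae : ∀ᵐ x ∂κ, x ∈ Icc (0 : ℝ) 1 := hκ
    apply integral_congr_ae
    filter_upwards [hae] with x hx
    have h1 : (s : ℂ) ^ N - (x : ℂ) = ((w - x : ℝ) : ℂ) := by
      rw [← hsw]; push_cast; rfl
    rw [h1, Complex.norm_real, Real.norm_of_nonneg (by linarith [hx.2])]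
  have hs' : 1 < ‖(s : ℂ)‖ := by
    rw [Complex.norm_real, Real.norm_of_nonneg (by linarith)]; exact hs
  rw [key μ hμ.support, key ν hν.support, hμ.potential s hs', hν.potential s hs']

theorem pot_unique {N : ℕ} (hN : N ≠ 0) {φ : ℂ → ℂ} {c : ℝ} {μ ν : ProbabilityMeasure XX}
    (hμ : Pot N φ c (μ : Measure XX)) (hν : Pot N φ c (ν : Measure XX)) : μ = ν := by
  have h1 := rootLaw_unique hN (isRootLaw_map hμ) (isRootLaw_map hν)
  apply Subtype.ext
  have h2 := congrArg (Measure.comap (Subtype.val : XX → ℝ)) h1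
  rwa [(MeasurableEmbedding.subtype_coe measurableSet_Icc).comap_map,
    (MeasurableEmbedding.subtype_coe measurableSet_Icc).comap_map] at h2

/-- the roots, as points of the interval -/
noncomputable def tau (t : ℕ → ℕ → ℝ) (j ν : ℕ) : XX := projIcc 0 1 zero_le_one (t j ν)

/-- the upper bound for the root polynomials -/
theorem bd {N : ℕ} (hN : N = 3 ∨ N = 4) {φ : ℂ → ℂ} {c : ℝ} (e : IsExteriorMap N φ c)
    {p : ℕ → ℂ[X]} (hp : IsBergmanOP N p) {k : ℕ} {q : ℕ → ℝ[X]} {t : ℕ → ℕ → ℝ}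
    (hq : ∀ j, p (j * N + k) = X ^ k * ((q j).map (algebraMap ℝ ℂ)).comp (X ^ N) ∧
        (q j).natDegree = j ∧ (q j).roots = (Multiset.range j).map (t j))
    (ht : ∀ j ν, ν < j → 0 < t j ν ∧ t j ν < 1) : Bd N k φ c (tau t) := by
  intro ε hε r hr0 hr1
  have hG := body hN
  have hN0 : N ≠ 0 := by omega
  obtain ⟨B, hB⟩ := log_bound hG ((isExt_iff N φ c).1 e) hε hr0 hr1
  refine ⟨B, ?_⟩
  have htend : Tendsto (fun j : ℕ => j * N + k) atTop atTop := by
    refine tendsto_atTop_mono (fun j => ?_) tendsto_id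
    have : j * 1 ≤ j * N := Nat.mul_le_mul_left j (by omega)
    simp only [id]
    omega
  filter_upwards [htend.eventually hB] with j hj z hz
  set n : ℕ := j * N + k with hn
  set κ : ℂ := (p n).leadingCoeff with hκ
  have hON := isON hp
  have hκ0 : κ ≠ 0 := hON.lead_ne n
  have htau : ∀ ν, ν < j → ((tau t j ν : XX) : ℝ) = t j ν := by
    intro ν hν
    rw [tau, projIcc_of_mem zero_le_one ⟨(ht j ν hν).1.le, (ht j ν hν).2.le⟩]
  -- factorization of `q j`
  have hcard : Multiset.card (q j).roots = (q j).natDegree := by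
    rw [(hq j).2.2, (hq j).2.1, Multiset.card_map, Multiset.card_range]
  have hfac := C_leadingCoeff_mul_prod_multiset_X_sub_C hcard
  have hlead : κ = (((q j).leadingCoeff : ℝ) : ℂ) := by
    rw [hκ, (hq j).1, leadingCoeff_mul, leadingCoeff_X_pow, one_mul,
      leadingCoeff_comp (by rw [natDegree_X_pow]; exact hN0), leadingCoeff_X_pow, one_pow, mul_one,
      leadingCoeff_map]
    rfl
  set P : ℂ[X] := C κ⁻¹ * p n with hP
  have hPe : P.eval z = z ^ k * ∏ ν ∈ Finset.range j, (z ^ N - ((t j ν : ℝ) : ℂ)) := by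
    rw [hP, eval_mul, eval_C, (hq j).1, eval_mul, eval_pow, eval_X, eval_comp, eval_pow, eval_X]
    conv_lhs => rw [← hfac]
    rw [Polynomial.map_mul, eval_mul, Polynomial.map_C, eval_C]
    have h1 : ((algebraMap ℝ ℂ) (q j).leadingCoeff) = κ := by rw [hlead]; rfl
    rw [h1, (hq j).2.2, Multiset.map_map]
    have h2 : ((Multiset.map ((fun a => X - C a) ∘ t j) (Multiset.range j)).prod) =
        ∏ ν ∈ Finset.range j, (X - C (t j ν)) := rfl
    rw [h2, Polynomial.map_prod, eval_prod]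
    have h3 : ∀ ν, eval (z ^ N) (Polynomial.map (algebraMap ℝ ℂ) (X - C (t j ν))) =
        z ^ N - ((t j ν : ℝ) : ℂ) := by
      intro ν
      simp
    simp_rw [h3]
    field_simp
  have hz0 : z ≠ 0 := by
    rw [← norm_pos_iff]; linarith
  have hfne : ∀ ν ∈ Finset.range j, z ^ N - ((t j ν : ℝ) : ℂ) ≠ 0 := by
    intro ν hν
    have := pow_sub_ne hN0 hz (tau t j ν)
    rwa [htau ν (Finset.mem_range.1 hν)] at this
  have hPne : P.eval z ≠ 0 := by
    rw [hPe]
    exact mul_ne_zero (pow_ne_zero k hz0) (Finset.prod_ne_zero_iff.2 hfne)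
  have hPdeg : P.natDegree ≤ n := by
    rw [hP]
    exact (natDegree_C_mul_le _ _).trans (hp.natDegree_eq n).le
  have hPmin : ∀ Q : ℂ[X], Q.Monic → Q.natDegree = n →
      ∫ z in Ngon N, ‖P.eval z‖ ^ 2 ≤ ∫ z in Ngon N, ‖Q.eval z‖ ^ 2 := by
    intro Q hQm hQn
    refine le_trans (le_of_eq ?_) (hON.extremal hG n Q hQm hQn)
    have h1 : ∀ z, ‖P.eval z‖ ^ 2 = (‖κ‖ ^ 2)⁻¹ * ‖(p n).eval z‖ ^ 2 := by
      intro z
      rw [hP, eval_mul, eval_C, norm_mul, norm_inv, mul_pow, inv_pow]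
    simp_rw [h1]
    rw [integral_const_mul]
    have h2 : ∫ z in Ngon N, ‖(p n).eval z‖ ^ 2 = 1 := by
      have h3 := inn_self (G := Ngon N) (p n)
      rw [hON.on n n, if_pos rfl] at h3
      exact_mod_cast h3.symm
    rw [h2, mul_one]
  have hmain := hj P hPdeg hPmin z hz hPne
  rw [hPe, norm_mul, norm_pow, norm_prod, Real.log_mul (pow_ne_zero k (norm_ne_zero_iff.2 hz0))
    (Finset.prod_ne_zero_iff.2 fun ν hν => norm_ne_zero_iff.2 (hfne ν hν)), Real.log_pow,
    Real.log_prod fun ν hν => norm_ne_zero_iff.2 (hfne ν hν)] at hmain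
  have hsum : ∑ ν ∈ Finset.range j, Real.log ‖z ^ N - (((tau t j ν : XX) : ℝ) : ℂ)‖ =
      ∑ ν ∈ Finset.range j, Real.log ‖z ^ N - ((t j ν : ℝ) : ℂ)‖ := by
    apply Finset.sum_congr rfl
    intro ν hν
    rw [htau ν (Finset.mem_range.1 hν)]
  rw [hsum]
  exact hmain

/-- The zeros of the Bergman orthogonal polynomials of the equilateral triangle and of the square
are asymptotically distributed according to the measure predicted by potential theory. -/
theorem result (N : ℕ) (hN : N = 3 ∨ N = 4) :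
    (∃ (φ : ℂ → ℂ) (c : ℝ), IsExteriorMap N φ c) ∧
    (∃! p : ℕ → ℂ[X], IsBergmanOP N p) ∧
    ∀ (φ : ℂ → ℂ) (c : ℝ), IsExteriorMap N φ c →
      ∃ μ : Measure ℝ, IsRootLaw N φ c μ ∧ (∀ μ' : Measure ℝ, IsRootLaw N φ c μ' → μ' = μ) ∧
        ∀ p : ℕ → ℂ[X], IsBergmanOP N p → ∀ k < N, ∃ q : ℕ → ℝ[X],
          (∀ j, p (j * N + k) = X ^ k * ((q j).map (algebraMap ℝ ℂ)).comp (X ^ N) ∧
            (q j).natDegree = j ∧ Multiset.card (q j).roots = j ∧
            ∀ t ∈ (q j).roots, 0 < t ∧ t < 1) ∧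
          ∀ f : ℝ → ℝ, Continuous f →
            Tendsto (fun j : ℕ => (j : ℝ)⁻¹ * ((q j).roots.map f).sum) atTop
              (𝓝 (∫ x, f x ∂μ)) := by
  have hG := body hN
  have hN0 : N ≠ 0 := by omega
  have hlib := RealInterlacingZeros.result N hN
  have hiff : ∀ p : ℕ → ℂ[X], IsBergmanOP N p ↔ RealInterlacingZeros.IsBergmanOP N p :=
    fun p => ⟨fun h => ⟨h.1, h.2, h.3⟩, fun h => ⟨h.1, h.2, h.3⟩⟩
  simp_rw [← hiff] at hlib
  refine ⟨?_, hlib.1, ?_⟩
  · obtain ⟨φ, c, h⟩ := exists_ext hG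
    exact ⟨φ, c, (isExt_iff N φ c).2 h⟩
  intro φ c e
  have e' := (isExt_iff N φ c).1 e
  -- cluster points
  have hcl : ∀ (k : ℕ) (τ : ℕ → ℕ → XX), Bd N k φ c τ → ∀ μ : ProbabilityMeasure XX,
      MapClusterPt μ atTop (emp τ) → Pot N φ c (μ : Measure XX) := by
    intro k τ hB μ hμ
    obtain ⟨U, hU, hlim⟩ := mapClusterPt_iff_ultrafilter.1 hμ
    exact pot_eq hN0 hG e' fun z hz => pot_le hN0 hG e' hB hU hlim hz
  obtain ⟨p₀, hp₀, -⟩ := hlib.1
  obtain ⟨q₀, t₀, hq₀, ht₀, -⟩ := hlib.2 p₀ hp₀ 0 (by omega)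
  obtain ⟨μ, hμ⟩ : ∃ μ : ProbabilityMeasure XX, MapClusterPt μ atTop (emp (tau t₀)) := by
    obtain ⟨x, hx⟩ := exists_clusterPt_of_compactSpace (map (emp (tau t₀)) atTop)
    exact ⟨x, hx⟩
  have hpot := hcl 0 (tau t₀) (bd hN e hp₀ hq₀ ht₀) μ hμ
  refine ⟨(μ : Measure XX).map Subtype.val, isRootLaw_map hpot,
    fun μ' hμ' => rootLaw_unique hN0 hμ' (isRootLaw_map hpot), ?_⟩
  intro p hp k hk
  obtain ⟨q, t, hq, ht, -⟩ := hlib.2 p hp k hk
  refine ⟨q, fun j => ⟨(hq j).1, (hq j).2.1, ?_, ?_⟩, ?_⟩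
  · rw [(hq j).2.2, Multiset.card_map, Multiset.card_range]
  · intro x hx
    rw [(hq j).2.2, Multiset.mem_map] at hx
    obtain ⟨ν, hν, rfl⟩ := hx
    exact ht j ν (Multiset.mem_range.1 hν)
  intro f hf
  have hconv : Tendsto (emp (tau t)) atTop (𝓝 μ) := by
    apply tendsto_nhds_of_unique_mapClusterPt
    intro ν hν
    exact pot_unique hN0 (hcl k (tau t) (bd hN e hp hq ht) ν hν) hpot
  have hfX : Continuous fun x : XX => f x := hf.comp continuous_subtype_val
  have h1 := (ProbabilityMeasure.tendsto_iff_forall_integral_tendsto.1 hconv)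
    (BoundedContinuousFunction.mkOfCompact ⟨fun x : XX => f x, hfX⟩)
  simp only [BoundedContinuousFunction.mkOfCompact_apply, ContinuousMap.coe_mk] at h1
  rw [(MeasurableEmbedding.subtype_coe measurableSet_Icc).integral_map]
  refine h1.congr' ?_
  filter_upwards [eventually_ne_atTop 0] with j hj
  rw [integral_emp (tau t) hj, (hq j).2.2, Multiset.map_map]
  congr 1
  have h2 : (Multiset.map (f ∘ t j) (Multiset.range j)).sum = ∑ ν ∈ Finset.range j, f (t j ν) := rfl
  rw [h2]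
  apply Finset.sum_congr rfl
  intro ν hν
  have hν' := Finset.mem_range.1 hν
  rw [tau, projIcc_of_mem zero_le_one ⟨(ht j ν hν').1.le, (ht j ν hν').2.le⟩]

end Pool.Agent.Results.MP_b1555f_an.ZeroDistribution
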